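import Mathlib
import Pool.Agent.R361.QF.BernHalf
import Pool.Agent.R361.QF.Bern4

/-!
# The half sum of a character of order `d` in the ring of integers of `ℚ(ζ_d)`
-/

set_option autoImplicit false

open Finset NumberField

namespace Pool.Agent.Run7.h97.GO

variable {p d : ℕ} [hp : Fact p.Prime] [hd0 : NeZero d] {K : Type} [Field K] [NumberField K]
  [hK : IsCyclotomicExtension {d} ℚ K]

/-- the reduction `𝓞 K → 𝔽_p` which maps `ζ` to a given primitive root of unity -/
theorem exists_hom {ζ : K} (hζ : IsPrimitiveRoot ζ d) {w : ZMod p} (hw : IsPrimitiveRoot w d) :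
    ∃ θ : 𝓞 K →+* ZMod p, θ hζ.toInteger = w := by
  have h1 : minpoly ℤ hζ.integralPowerBasis.gen = Polynomial.cyclotomic d ℤ := by
    rw [hζ.integralPowerBasis_gen, ← RingOfIntegers.minpoly_coe]
    change minpoly ℤ ζ = _
    exact (Polynomial.cyclotomic_eq_minpoly hζ (NeZero.pos d)).symm
  have h2 : Polynomial.aeval w (minpoly ℤ hζ.integralPowerBasis.gen) = 0 := by
    rw [h1, Polynomial.aeval_def, ← Polynomial.eval_map, Polynomial.map_cyclotomic]
    exact hw.isRoot_cyclotomic (NeZero.pos d)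
  refine ⟨(hζ.integralPowerBasis.lift w h2).toRingHom, ?_⟩
  have h3 := hζ.integralPowerBasis.lift_gen w h2
  rw [hζ.integralPowerBasis_gen] at h3
  exact h3

/-- the norm of the kernel of a homomorphism onto `𝔽_p` -/
theorem absNorm_ker (θ : 𝓞 K →+* ZMod p) : Ideal.absNorm (RingHom.ker θ) = p := by
  have hs : Function.Surjective θ := ZMod.ringHom_surjective θ
  rw [Ideal.absNorm_apply, Submodule.cardQuot_apply]
  have e := RingHom.quotientKerEquivOfSurjective hs
  rw [Nat.card_congr e.toEquiv, Nat.card_zmod]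

omit [NumberField K] hK in
theorem ker_inj {ζ : K} (hζ : IsPrimitiveRoot ζ d) (θ θ' : 𝓞 K →+* ZMod p)
    (h : RingHom.ker θ = RingHom.ker θ') : θ hζ.toInteger = θ' hζ.toInteger := by
  set c : ℕ := (θ hζ.toInteger).val with hc
  have h1 : hζ.toInteger - (c : 𝓞 K) ∈ RingHom.ker θ := by
    rw [RingHom.mem_ker, map_sub, map_natCast, hc, ZMod.natCast_val, ZMod.cast_id, sub_self]
  rw [h, RingHom.mem_ker, map_sub, map_natCast, hc, ZMod.natCast_val, ZMod.cast_id,
    sub_eq_zero] at h1
  exact h1.symm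

omit hK in
/-- an element which is killed by several homomorphisms has a norm divisible by a power of `p` -/
theorem pow_dvd_norm {ζ : K} (hζ : IsPrimitiveRoot ζ d) {ι : Type*} (B : Finset ι)
    (θ : ι → 𝓞 K →+* ZMod p) (hinj : ∀ i ∈ B, ∀ j ∈ B, θ i hζ.toInteger = θ j hζ.toInteger → i = j)
    (S : 𝓞 K) (hS : ∀ i ∈ B, θ i S = 0) :
    p ^ #B ∣ (Algebra.norm ℤ S).natAbs := by
  classical
  have hker : ∀ i ∈ B, ∀ j ∈ B, RingHom.ker (θ i) = RingHom.ker (θ j) → i = j :=
    fun i hi j hj h => hinj i hi j hj (ker_inj hζ _ _ h)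
  have h1 : ∏ P ∈ B.image (fun i => RingHom.ker (θ i)), P ∣ Ideal.span {S} := by
    apply Finset.prod_primes_dvd
    · intro P hP
      rw [mem_image] at hP
      obtain ⟨i, _, rfl⟩ := hP
      have : (RingHom.ker (θ i)).IsPrime := RingHom.ker_isPrime _
      apply Ideal.prime_of_isPrime _ this
      intro h0
      have h2 := absNorm_ker (θ i)
      rw [h0, Ideal.absNorm_bot] at h2
      exact hp.out.ne_zero h2.symm
    · intro P hP
      rw [mem_image] at hP
      obtain ⟨i, hi, rfl⟩ := hP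
      rw [Ideal.dvd_span_singleton, RingHom.mem_ker]
      exact hS i hi
  have h2 := map_dvd (Ideal.absNorm (S := 𝓞 K)) h1
  rw [map_prod, prod_image (by
    intro i hi j hj h
    exact hker i hi j hj h), prod_congr rfl (fun i _ => absNorm_ker (θ i)), prod_const,
    Ideal.absNorm_span_singleton] at h2
  exact h2

/-- the absolute norm as a product over the embeddings -/
theorem norm_emb (S : 𝓞 K) :
    (((Algebra.norm ℤ S).natAbs : ℕ) : ℝ) = ∏ φ : K →+* ℂ, ‖φ (S : K)‖ := by
  have h1 := Algebra.norm_eq_prod_embeddings ℚ ℂ (S : K)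
  rw [← Algebra.coe_norm_int] at h1
  have h2 := congrArg norm h1
  rw [norm_prod] at h2
  have h3 : ‖(algebraMap ℚ ℂ) ((Algebra.norm ℤ S : ℤ) : ℚ)‖ =
      (((Algebra.norm ℤ S).natAbs : ℕ) : ℝ) := by
    rw [map_intCast, Complex.norm_intCast, Nat.cast_natAbs, Int.cast_abs]
  rw [h3] at h2
  rw [h2]
  exact (Fintype.prod_equiv (RingHom.equivRatAlgHom (R := K) (S := ℂ)) _ _ (fun _ => rfl)).symm

end Pool.Agent.Run7.h97.GO
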