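import Mathlib
import Pool.Agent.Run7.h97.GO.Alg
import Pool.Agent.R361.QF.HalfNe

/-!
# Characters of exact order `d` and the Bernoulli numbers `B_{km+1}`, `p - 1 = m d`
-/

set_option autoImplicit false
set_option linter.unusedSectionVars false

open Finset NumberField

namespace Pool.Agent.Run7.h97.GO

variable {p d m : ℕ} [hp : Fact p.Prime] [hd0 : NeZero d] {K : Type} [Field K] [NumberField K]
  [hK : IsCyclotomicExtension {d} ℚ K]

omit [NumberField K] hK in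
theorem exists_char (hpm : p - 1 = m * d) {ζ : K} (hζ : IsPrimitiveRoot ζ d) :
    ∃ (g : (ZMod p)ˣ) (χ : MulChar (ZMod p) (𝓞 K)), orderOf g = p - 1 ∧
      (∀ a : (ZMod p)ˣ, ∃ j : ℕ, g ^ j = a) ∧ χ (g : ZMod p) = hζ.toInteger := by
  obtain ⟨g, hg⟩ := (inferInstance : IsCyclic (ZMod p)ˣ).exists_generator
  have ho : orderOf g = p - 1 := by
    rw [orderOf_eq_card_of_forall_mem_zpowers hg, Nat.card_eq_fintype_card, ZMod.card_units]
  have hpow : ∀ a : (ZMod p)ˣ, ∃ j : ℕ, g ^ j = a := by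
    intro a
    have := hg a
    rw [← mem_powers_iff_mem_zpowers] at this
    exact this
  have h1 := hζ.toInteger_isPrimitiveRoot
  have h2 : (h1.isUnit (NeZero.ne d)).unit ∈ rootsOfUnity (Fintype.card (ZMod p)ˣ) (𝓞 K) := by
    rw [mem_rootsOfUnity', ZMod.card_units, IsUnit.unit_spec, hpm, mul_comm, pow_mul,
      h1.pow_eq_one, one_pow]
  refine ⟨g, MulChar.ofRootOfUnity h2 hg, ho, hpow, ?_⟩
  rw [MulChar.ofRootOfUnity_spec, IsUnit.unit_spec]

/-- the half sum -/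
noncomputable def SS {R : Type*} [CommRing R] (χ : MulChar (ZMod p) R) : R :=
  ∑ a ∈ Icc 1 ((p - 1) / 2), χ (a : ZMod p)

lemma unit_of_mem {a : ℕ} (ha : a ∈ Icc 1 ((p - 1) / 2)) : (a : ZMod p) ≠ 0 := by
  rw [mem_Icc] at ha
  rw [Ne, ZMod.natCast_eq_zero_iff]
  intro hd
  have := Nat.le_of_dvd (by omega) hd
  omega

section

variable {ζ : K} (hζ : IsPrimitiveRoot ζ d) (g : (ZMod p)ˣ) (χ : MulChar (ZMod p) (𝓞 K))
  (ho : orderOf g = p - 1) (hpow : ∀ a : (ZMod p)ˣ, ∃ j : ℕ, g ^ j = a)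
  (hg : χ (g : ZMod p) = hζ.toInteger)

include ho in
omit [NumberField K] hK in
lemma prim_w (hpm : p - 1 = m * d) (hp2 : 2 ≤ p - 1) : IsPrimitiveRoot ((g : ZMod p) ^ m) d := by
  have hm : m ≠ 0 := by
    rintro rfl
    omega
  have h1 : IsPrimitiveRoot (g : ZMod p) (p - 1) := by
    rw [IsPrimitiveRoot.coe_units_iff, ← ho]
    exact IsPrimitiveRoot.orderOf g
  exact h1.pow (by omega) hpm

include hpow hg in
omit [NumberField K] hK in
lemma hom_char (θ : 𝓞 K →+* ZMod p) (n : ℕ) (hθ : θ hζ.toInteger = (g : ZMod p) ^ n) {a : ZMod p}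
    (ha : a ≠ 0) : θ (χ a) = a ^ n := by
  obtain ⟨u, rfl⟩ := isUnit_iff_ne_zero.mpr ha
  obtain ⟨j, rfl⟩ := hpow u
  rw [Units.val_pow_eq_pow_val, map_pow, map_pow, hg, hθ, ← pow_mul, ← pow_mul, mul_comm]

include ho hpow hg in
/-- **divisibility of the norm** -/
theorem dvd_norm (hpm : p - 1 = m * d) (hp3 : 3 ≤ p) (B : Finset ℕ)
    (hB : ∀ k ∈ B, 1 ≤ k ∧ k < d ∧ k.Coprime d ∧ m * k + 3 ≤ p ∧
      (p : ℤ) ∣ (bernoulli (m * k + 1)).num) :
    p ^ #B ∣ (Algebra.norm ℤ (SS χ)).natAbs := by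
  have hw := prim_w g ho hpm (by omega)
  have hm : 1 ≤ m := by
    rcases Nat.eq_zero_or_pos m with h | h
    · rw [h, zero_mul] at hpm; omega
    · exact h
  have hk : ∀ k : ℕ, ∃ θ : 𝓞 K →+* ZMod p, k.Coprime d → θ hζ.toInteger = (g : ZMod p) ^ (m * k) := by
    intro k
    by_cases h : k.Coprime d
    · obtain ⟨θ, hθ⟩ := exists_hom (K := K) hζ (hw.pow_of_coprime k h)
      exact ⟨θ, fun _ => by rw [hθ, pow_mul]⟩
    · obtain ⟨θ, _⟩ := exists_hom (K := K) hζ hw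
      exact ⟨θ, fun h' => absurd h' h⟩
  choose θ hθ using hk
  apply pow_dvd_norm hζ B θ
  · intro i hi j hj hij
    obtain ⟨-, hi2, hi3, -, -⟩ := hB i hi
    obtain ⟨-, hj2, hj3, -, -⟩ := hB j hj
    rw [hθ i hi3, hθ j hj3, pow_mul, pow_mul] at hij
    exact hw.pow_inj hi2 hj2 hij
  · intro k hk
    obtain ⟨hk1, hk2, hk3, hk4, hk5⟩ := hB k hk
    have hsum := Pool.Agent.R361.QF.half_pow_sum p hp3 (m * k) (Nat.mul_pos hm hk1) hk4 hk5
    unfold SS
    rw [map_sum, ← hsum]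
    apply sum_congr rfl
    intro a ha
    exact hom_char hζ g χ hpow hg (θ k) (m * k) (hθ k hk3) (unit_of_mem ha)

include ho hg in
omit [NumberField K] hK in
/-- the character is odd -/
theorem char_neg_one (hpm : p - 1 = m * d) (hm : Odd m) (hp3 : 3 ≤ p) : χ (-1) = -1 := by
  have hodd : p % 2 = 1 := by
    rcases hp.out.eq_two_or_odd with h | h
    · omega
    · exact h
  obtain ⟨e, he⟩ : Even d := by
    have h1 : Even (m * d) := by
      rw [← hpm, Nat.even_iff]; omega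
    rcases Nat.even_mul.mp h1 with h2 | h2
    · exact absurd h2 (Nat.not_even_iff_odd.mpr hm)
    · exact h2
  have hd2 : 0 < e := by
    rcases Nat.eq_zero_or_pos e with h | h
    · rw [he, h] at hpm
      omega
    · exact h
  have hme : (p - 1) = 2 * (m * e) := by rw [hpm, he]; ring
  -- `g ^ (m e) = -1`
  have h1 : ((g : ZMod p) ^ (m * e)) * ((g : ZMod p) ^ (m * e)) = 1 := by
    rw [← pow_add, ← two_mul, ← hme, ← Units.val_pow_eq_pow_val, ← ho, pow_orderOf_eq_one,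
      Units.val_one]
  have h2 : (g : ZMod p) ^ (m * e) ≠ 1 := by
    intro h
    have h3 : orderOf g ∣ m * e := by
      apply orderOf_dvd_of_pow_eq_one
      apply Units.ext
      rw [Units.val_pow_eq_pow_val, Units.val_one]
      exact h
    have h4 : 0 < m * e := Nat.mul_pos (by
      rcases Nat.eq_zero_or_pos m with h | h
      · rw [h] at hm; exact absurd hm (by decide)
      · exact h) hd2
    have := Nat.le_of_dvd h4 h3
    omega
  have h3 : (g : ZMod p) ^ (m * e) = -1 := by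
    rcases mul_self_eq_one_iff.mp h1 with h | h
    · exact absurd h h2
    · exact h
  have hz := hζ.toInteger_isPrimitiveRoot
  have h4 : hζ.toInteger ^ e * hζ.toInteger ^ e = 1 := by
    rw [← pow_add, ← he, hz.pow_eq_one]
  have h5 : hζ.toInteger ^ e ≠ 1 := by
    intro h
    have := hz.dvd_of_pow_eq_one e h
    have := Nat.le_of_dvd hd2 this
    omega
  have h6 : hζ.toInteger ^ e = -1 := by
    rcases mul_self_eq_one_iff.mp h4 with h | h
    · exact absurd h h5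
    · exact h
  rw [← h3, map_pow, hg, mul_comm, pow_mul, h6]
  exact hm.neg_one_pow

end

/-- the complex characters -/
noncomputable def cx (χ : MulChar (ZMod p) (𝓞 K)) (φ : K →+* ℂ) : DirichletCharacter ℂ p :=
  χ.ringHomComp (φ.comp (algebraMap (𝓞 K) K))

omit [NumberField K] hK hd0 in
lemma cx_apply (χ : MulChar (ZMod p) (𝓞 K)) (φ : K →+* ℂ) (a : ZMod p) :
    cx χ φ a = φ ((χ a : 𝓞 K) : K) := rfl

omit [NumberField K] hK hd0 in
lemma cx_odd (χ : MulChar (ZMod p) (𝓞 K)) (h : χ (-1) = -1) (φ : K →+* ℂ) : (cx χ φ).Odd := by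
  unfold DirichletCharacter.Odd
  rw [cx_apply, h]
  simp

omit [NumberField K] hK hd0 in
lemma cx_SS (χ : MulChar (ZMod p) (𝓞 K)) (φ : K →+* ℂ) :
    φ ((SS χ : 𝓞 K) : K) = ∑ a ∈ Icc 1 ((p - 1) / 2), cx χ φ (a : ZMod p) := by
  have h1 : ((SS χ : 𝓞 K) : K) = ∑ a ∈ Icc 1 ((p - 1) / 2), ((χ (a : ZMod p) : 𝓞 K) : K) :=
    map_sum (algebraMap (𝓞 K) K) _ _
  rw [h1, map_sum]
  rfl

/-- the half sum is not zero -/
theorem SS_ne (χ : MulChar (ZMod p) (𝓞 K)) (h : χ (-1) = -1) (hp2 : p % 2 = 1) : SS χ ≠ 0 := by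
  intro h0
  obtain ⟨φ⟩ : Nonempty (K →+* ℂ) := inferInstance
  have h1 := cx_SS χ φ
  rw [h0] at h1
  apply Pool.Agent.R361.QF.half_ne hp2 (cx χ φ) (cx_odd χ h φ)
  rw [← h1]
  simp

omit [NumberField K] hK hd0 in
/-- `(1 - χ(g)) S` is divisible by `2` -/
theorem two_dvd (χ : MulChar (ZMod p) (𝓞 K)) (h : χ (-1) = -1) (hp2 : p % 2 = 1) (g : ZMod p)
    (hg : g ≠ 0) : (2 : 𝓞 K) ∣ (1 - χ g) * SS χ := by
  set I : Ideal (𝓞 K) := Ideal.span {2} with hI
  set f : ZMod p → 𝓞 K ⧸ I := fun a => Ideal.Quotient.mk I (χ a) with hf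
  have hneg : ∀ a, f (-a) = f a := by
    intro a
    simp only [hf]
    rw [← neg_one_mul, map_mul, h, Ideal.Quotient.eq, hI, Ideal.mem_span_singleton]
    exact ⟨-χ a, by ring⟩
  have hIcc : Icc 1 ((p - 1) / 2) = Ico 1 (p / 2).succ := by
    ext a
    simp only [mem_Icc, mem_Ico]
    omega
  have h1 : ∑ a ∈ Ico 1 (p / 2).succ, f (g * a) = ∑ a ∈ Ico 1 (p / 2).succ, f a := by
    have h2 := ZMod.Ico_map_valMinAbs_natAbs_eq_Ico_map_id p g hg
    have h3 : ∀ a : ℕ, f (g * a) = f (((g * a).valMinAbs.natAbs : ℕ) : ZMod p) := by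
      intro a
      rw [ZMod.natCast_natAbs_valMinAbs]
      split_ifs
      · rfl
      · exact (hneg _).symm
    rw [sum_congr rfl fun a _ => h3 a]
    have h4 := congrArg (fun s : Multiset ℕ => (s.map (fun x : ℕ => f (x : ZMod p))).sum) h2
    simp only [Multiset.map_map] at h4
    exact h4
  rw [← Ideal.mem_span_singleton, ← hI, ← Ideal.Quotient.eq_zero_iff_mem]
  have h5 : Ideal.Quotient.mk I ((1 - χ g) * SS χ) =
      ∑ a ∈ Ico 1 (p / 2).succ, f a - ∑ a ∈ Ico 1 (p / 2).succ, f (g * a) := by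
    unfold SS
    rw [hIcc, sub_mul, one_mul, mul_sum, map_sub, map_sum, map_sum]
    congr 1
    apply sum_congr rfl
    intro a _
    rw [← map_mul]
  rw [h5, h1, sub_self]

end Pool.Agent.Run7.h97.GO
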