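import Mathlib
import Pool.Agent.R361.AC.Half

/-!
# The size of the half sum of an odd character
-/

set_option autoImplicit false

open Finset

namespace Pool.Agent.Run7.h97.GO

open Pool.Agent.R361.AC (oddTo cw half_sum_norm)

section cwlemmas

variable (p k : ℕ)

lemma cw_arg' (hk : 0 < k) (hkp : k < p) :
    0 < Real.pi * k / (2 * p) ∧ Real.pi * k / (2 * p) < Real.pi / 2 := by
  have hp0 : (0 : ℝ) < p := by exact_mod_cast (by omega : 0 < p)
  have hk0 : (0 : ℝ) < k := by exact_mod_cast hk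
  have hkp' : (k : ℝ) < p := by exact_mod_cast hkp
  have hpi := Real.pi_pos
  refine ⟨by positivity, ?_⟩
  rw [div_lt_div_iff₀ (by positivity) (by norm_num)]
  nlinarith

lemma cw_nonneg' (hk : 0 < k) (hkp : k < p) : 0 ≤ cw p k := by
  obtain ⟨h0, h1⟩ := cw_arg' p k hk hkp
  unfold cw
  have hpi := Real.pi_pos
  have hs := Real.sin_pos_of_pos_of_lt_pi h0 (by linarith)
  have hc := Real.cos_pos_of_mem_Ioo ⟨by linarith, h1⟩
  positivity

lemma cw_le' (hk : 0 < k) (hkp : k < p) : cw p k ≤ 1 / k := by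
  obtain ⟨h0, h1⟩ := cw_arg' p k hk hkp
  unfold cw
  have hp0 : (0 : ℝ) < p := by exact_mod_cast (by omega : 0 < p)
  have hk0 : (0 : ℝ) < k := by exact_mod_cast hk
  have hpi := Real.pi_pos
  have hs := Real.sin_pos_of_pos_of_lt_pi h0 (by linarith)
  have hc := Real.cos_pos_of_mem_Ioo ⟨by linarith, h1⟩
  set x := Real.pi * k / (2 * p) with hx
  have h2 : x ≤ Real.sin x / Real.cos x := by
    rw [← Real.tan_eq_sin_div_cos]
    exact Real.le_tan h0.le h1
  rw [le_div_iff₀ hc] at h2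
  have h3 : Real.pi / (2 * p) = x / k := by rw [hx]; field_simp
  rw [h3]
  rw [div_mul_div_comm, div_le_div_iff₀ (by positivity) hk0]
  nlinarith

end cwlemmas

lemma odd_harm (J : ℕ) : ∑ j ∈ range (J + 1), (1 : ℝ) / (2 * j + 1) ≤
    1 + Real.log (2 * J + 1) / 2 := by
  induction J with
  | zero => simp
  | succ J ih =>
    rw [sum_range_succ]
    push_cast
    have h1 : (0 : ℝ) < 2 * (J : ℝ) + 1 := by positivity
    have h2 : (0 : ℝ) < 2 * ((J : ℝ) + 1) + 1 := by positivity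
    have h3 : Real.log ((2 * (J : ℝ) + 1) / (2 * ((J : ℝ) + 1) + 1)) ≤
        (2 * (J : ℝ) + 1) / (2 * ((J : ℝ) + 1) + 1) - 1 := Real.log_le_sub_one_of_pos (by positivity)
    rw [Real.log_div h1.ne' h2.ne'] at h3
    have h4 : (2 * (J : ℝ) + 1) / (2 * ((J : ℝ) + 1) + 1) - 1 =
        -2 * (1 / (2 * ((J : ℝ) + 1) + 1)) := by field_simp; ring
    rw [h4] at h3
    linarith

lemma sum_odd_le (p : ℕ) (hp : p % 2 = 1) (hp3 : 3 ≤ p) :
    ∑ n ∈ oddTo (p - 1), (1 : ℝ) / n ≤ 1 + Real.log p / 2 := by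
  obtain ⟨J, hJ⟩ : ∃ J, p = 2 * J + 3 := ⟨(p - 3) / 2, by omega⟩
  have h1 : ∑ n ∈ oddTo (p - 1), (1 : ℝ) / n = ∑ j ∈ range (J + 1), (1 : ℝ) / (2 * j + 1) := by
    symm
    apply sum_nbij' (fun j => 2 * j + 1) (fun n => (n - 1) / 2)
    · intro j hj
      rw [mem_range] at hj
      simp only [oddTo, mem_filter, mem_Icc]
      omega
    · intro n hn
      simp only [oddTo, mem_filter, mem_Icc] at hn
      rw [mem_range]
      omega
    · intro j _
      omega
    · intro n hn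
      simp only [oddTo, mem_filter, mem_Icc] at hn
      omega
    · intro j _
      push_cast
      rfl
  rw [h1]
  refine (odd_harm J).trans ?_
  have h2 : Real.log (2 * J + 1) ≤ Real.log p := by
    apply Real.log_le_log (by positivity)
    have : 2 * J + 1 ≤ p := by omega
    exact_mod_cast this
  linarith

/-- `|∑_{a < p/2} χ(a)| ≤ √p (log p + 2) / π` -/
theorem half_bound (p : ℕ) [hp : Fact p.Prime] (hp2 : p % 2 = 1) (χ : DirichletCharacter ℂ p)
    (hχ : χ.Odd) :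
    ‖∑ a ∈ Icc 1 ((p - 1) / 2), χ (a : ZMod p)‖ ≤ √p / Real.pi * (Real.log p + 2) := by
  have hp3 : 3 ≤ p := by
    have := hp.out.two_le
    omega
  have hp0 : (0 : ℝ) < p := by exact_mod_cast hp.out.pos
  have hpi := Real.pi_pos
  have h1 := half_sum_norm p hp2 χ hχ
  have h2 : ‖∑ n ∈ oddTo (p - 1), χ (n : ZMod p) * (cw p n : ℂ)‖ ≤ 1 + Real.log p / 2 := by
    refine (norm_sum_le _ _).trans (le_trans (sum_le_sum ?_) (sum_odd_le p hp2 hp3))
    intro n hn
    simp only [oddTo, mem_filter, mem_Icc] at hn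
    rw [norm_mul, Complex.norm_real, Real.norm_eq_abs,
      abs_of_nonneg (Pool.Agent.Run7.h97.GO.cw_nonneg' p n (by omega) (by omega))]
    have h3 := Pool.Agent.Run7.h97.GO.cw_le' p n (by omega) (by omega)
    have h4 := DirichletCharacter.norm_le_one χ (n : ZMod p)
    have h5 := Pool.Agent.Run7.h97.GO.cw_nonneg' p n (by omega) (by omega)
    calc ‖χ (n : ZMod p)‖ * cw p n ≤ 1 * cw p n := mul_le_mul_of_nonneg_right h4 h5
      _ ≤ 1 / n := by rw [one_mul]; exact h3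
  set S := ‖∑ a ∈ Icc 1 ((p - 1) / 2), χ (a : ZMod p)‖ with hS
  have hlog : 0 ≤ Real.log p := Real.log_natCast_nonneg p
  have h3 : Real.pi ^ 2 / (4 * p) * S ^ 2 ≤ (1 + Real.log p / 2) ^ 2 := by
    rw [h1]
    exact pow_le_pow_left₀ (norm_nonneg _) h2 2
  have hsq : √(p : ℝ) ^ 2 = p := Real.sq_sqrt hp0.le
  have hs0 : 0 < √(p : ℝ) := Real.sqrt_pos.mpr hp0
  apply le_of_sq_le_sq _ (by positivity)
  have h4 : (√(p : ℝ) / Real.pi * (Real.log p + 2)) ^ 2 =
      (4 * p / Real.pi ^ 2) * (1 + Real.log p / 2) ^ 2 := by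
    rw [mul_pow, div_pow, hsq]; ring
  rw [h4]
  calc S ^ 2 = (4 * p / Real.pi ^ 2) * (Real.pi ^ 2 / (4 * p) * S ^ 2) := by field_simp
    _ ≤ _ := mul_le_mul_of_nonneg_left h3 (by positivity)

end Pool.Agent.Run7.h97.GO
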