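import Mathlib
import Pool.Agent.Run7.h97.GO.Char
import Pool.Agent.Run7.h97.GO.Size

/-!
# The irregular indices `i` of `p` with a given value of `gcd(2i - 1, p - 1)`
-/

set_option autoImplicit false
set_option linter.unusedSectionVars false

open Finset NumberField

namespace Pool.Agent.Run7.h97.GO

/-- the norm of `1 - ζ` is `1` or `2` if `d` is even -/
theorem norm_one_sub {d : ℕ} [hd0 : NeZero d] {K : Type} [Field K] [NumberField K]
    [hK : IsCyclotomicExtension {d} ℚ K] {ζ : K} (hζ : IsPrimitiveRoot ζ d) (hd : Even d) :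
    (Algebra.norm ℤ (1 - hζ.toInteger)).natAbs ∣ 2 := by
  have hd1 : d ≠ 0 := NeZero.ne d
  have e1 : (Algebra.norm ℤ (1 - hζ.toInteger)).natAbs =
      (Algebra.norm ℤ (hζ.toInteger - 1)).natAbs := by
    have : (1 - hζ.toInteger) = (-1) * (hζ.toInteger - 1) := by ring
    rw [this, map_mul, Int.natAbs_mul]
    have h1 : (Algebra.norm ℤ (-1 : 𝓞 K)).natAbs = 1 := by
      have h2 : Algebra.norm ℤ (-1 : 𝓞 K) * Algebra.norm ℤ (-1 : 𝓞 K) = 1 := by
        rw [← map_mul]; simp
      rcases mul_self_eq_one_iff.mp h2 with h | h <;> rw [h] <;> rfl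
    rw [h1, one_mul]
  rw [e1]
  by_cases h2 : d = 2
  · subst h2
    have h3 : hζ.toInteger = -1 := hζ.toInteger_isPrimitiveRoot.eq_neg_one_of_two_right
    rw [h3]
    have h4 : (-1 - 1 : 𝓞 K) = algebraMap ℤ (𝓞 K) (-2) := by
      rw [algebraMap_int_eq, eq_intCast]; push_cast; ring
    rw [h4, Algebra.norm_algebraMap, NumberField.RingOfIntegers.rank,
      IsCyclotomicExtension.finrank K (Polynomial.cyclotomic.irreducible_rat (n := 2) (by norm_num))]
    decide
  · have hd2 : 2 < d := by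
      obtain ⟨e, he⟩ := hd
      omega
    have h3 := IsPrimitiveRoot.sub_one_norm_eq_eval_cyclotomic (K := ℚ) (L := K) hζ hd2
      (Polynomial.cyclotomic.irreducible_rat (NeZero.pos d))
    have h4 : ((Algebra.norm ℤ (hζ.toInteger - 1) : ℤ) : ℚ) =
        ((Polynomial.eval 1 (Polynomial.cyclotomic d ℤ) : ℤ) : ℚ) := by
      rw [Algebra.coe_norm_int, ← h3]
      rfl
    have h5 : Algebra.norm ℤ (hζ.toInteger - 1) =
        Polynomial.eval 1 (Polynomial.cyclotomic d ℤ) := by exact_mod_cast h4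
    rw [h5]
    by_cases h6 : ∃ (q k : ℕ), q.Prime ∧ q ^ k = d
    · obtain ⟨q, k, hq, hk⟩ := h6
      have hk0 : k ≠ 0 := by
        rintro rfl
        rw [pow_zero] at hk
        omega
      obtain ⟨k, rfl⟩ := Nat.exists_eq_succ_of_ne_zero hk0
      have hq2 : q = 2 := by
        have h7 : 2 ∣ q ^ (k + 1) := by
          rw [← Nat.succ_eq_add_one, hk]; exact hd.two_dvd
        exact ((Nat.prime_dvd_prime_iff_eq Nat.prime_two hq).mp
          (Nat.prime_two.dvd_of_dvd_pow h7)).symm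
      subst hq2
      have : Fact (Nat.Prime 2) := ⟨Nat.prime_two⟩
      rw [← hk, Nat.succ_eq_add_one, Polynomial.eval_one_cyclotomic_prime_pow]
      decide
    · push Not at h6
      rw [Polynomial.eval_one_cyclotomic_not_prime_pow (fun {q} hq k => h6 q k hq)]
      decide

/-- the basic estimate -/
theorem bound {p d m : ℕ} [hp : Fact p.Prime] (hpm : p - 1 = m * d) (hm : Odd m) (hp3 : 3 ≤ p)
    (B : Finset ℕ)
    (hB : ∀ k ∈ B, 1 ≤ k ∧ k < d ∧ k.Coprime d ∧ m * k + 3 ≤ p ∧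
      (p : ℤ) ∣ (bernoulli (m * k + 1)).num) :
    (p : ℝ) ^ #B ≤ 2 * (√p * (Real.log p + 2) / (2 * Real.pi)) ^ d.totient := by
  have hodd : p % 2 = 1 := by
    rcases hp.out.eq_two_or_odd with h | h
    · omega
    · exact h
  have hd : Even d := by
    have h1 : Even (m * d) := by
      rw [← hpm, Nat.even_iff]; omega
    rcases Nat.even_mul.mp h1 with h2 | h2
    · exact absurd h2 (Nat.not_even_iff_odd.mpr hm)
    · exact h2
  have hd0 : NeZero d := ⟨by
    rintro rfl
    rw [mul_zero] at hpm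
    omega⟩
  let K := CyclotomicField d ℚ
  have hcyc : IsCyclotomicExtension {d} ℚ K := CyclotomicField.isCyclotomicExtension d ℚ
  have hζ : IsPrimitiveRoot (IsCyclotomicExtension.zeta d ℚ K) d :=
    IsCyclotomicExtension.zeta_spec d ℚ K
  obtain ⟨g, χ, ho, hpow, hg⟩ := exists_char (p := p) (m := m) hpm hζ
  have hneg := char_neg_one hζ g χ ho hg hpm hm hp3
  have hdiv := dvd_norm hζ g χ ho hpow hg hpm hp3 B hB
  have h2 := two_dvd χ hneg hodd (g : ZMod p) g.ne_zero
  rw [hg] at h2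
  set S : 𝓞 K := SS χ with hS
  have hSne : S ≠ 0 := SS_ne χ hneg hodd
  have hrank : Module.finrank ℚ K = d.totient :=
    IsCyclotomicExtension.finrank K (Polynomial.cyclotomic.irreducible_rat (NeZero.pos d))
  set N := (Algebra.norm ℤ S).natAbs with hN
  have hN0 : 0 < N := by
    rw [hN, Int.natAbs_pos]
    exact Algebra.norm_ne_zero_iff.mpr hSne
  have h3 : 2 ^ d.totient ∣ 2 * N := by
    have h4 := map_dvd (Algebra.norm ℤ) h2
    rw [map_mul] at h4
    have h5 : Algebra.norm ℤ (2 : 𝓞 K) = 2 ^ d.totient := by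
      have : (2 : 𝓞 K) = algebraMap ℤ (𝓞 K) 2 := by
        rw [algebraMap_int_eq, eq_intCast]; push_cast; rfl
      rw [this, Algebra.norm_algebraMap, NumberField.RingOfIntegers.rank, hrank]
    rw [h5] at h4
    have h6 := Int.natAbs_dvd_natAbs.mpr h4
    rw [Int.natAbs_pow, Int.natAbs_mul] at h6
    exact h6.trans (Nat.mul_dvd_mul_right (norm_one_sub hζ hd) N)
  have h4 : p ^ #B ∣ 2 * N := hdiv.trans (Dvd.intro_left 2 rfl)
  have hcop : (2 ^ d.totient).Coprime (p ^ #B) := by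
    apply Nat.Coprime.pow
    rw [Nat.coprime_primes Nat.prime_two hp.out]
    omega
  have h5 := hcop.mul_dvd_of_dvd_of_dvd h3 h4
  have h6 := Nat.le_of_dvd (by omega) h5
  have hp0 : (0 : ℝ) < p := by exact_mod_cast hp.out.pos
  have h7 : (N : ℝ) ≤ (√p / Real.pi * (Real.log p + 2)) ^ d.totient := by
    rw [hN, norm_emb]
    have h8 : ∀ φ : K →+* ℂ, ‖φ ((S : 𝓞 K) : K)‖ ≤ √p / Real.pi * (Real.log p + 2) := by
      intro φ
      rw [hS, cx_SS]
      exact half_bound p hodd (cx χ φ) (cx_odd χ hneg φ)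
    calc ∏ φ : K →+* ℂ, ‖φ ((S : 𝓞 K) : K)‖ ≤ ∏ _φ : K →+* ℂ, √p / Real.pi * (Real.log p + 2) :=
          prod_le_prod (fun _ _ => norm_nonneg _) (fun φ _ => h8 φ)
      _ = _ := by
          rw [prod_const, card_univ, NumberField.Embeddings.card K ℂ, hrank]
  have h8 : (2 : ℝ) ^ d.totient * (p : ℝ) ^ #B ≤ 2 * N := by exact_mod_cast h6
  have h9 : (0 : ℝ) < 2 ^ d.totient := by positivity
  rw [← mul_le_mul_iff_right₀ h9]
  calc (2 : ℝ) ^ d.totient * (p : ℝ) ^ #B ≤ 2 * N := h8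
    _ ≤ 2 * (√p / Real.pi * (Real.log p + 2)) ^ d.totient := by linarith
    _ = 2 ^ d.totient * (2 * (√p * (Real.log p + 2) / (2 * Real.pi)) ^ d.totient) := by
        rw [mul_left_comm, ← mul_pow]
        congr 2
        have := Real.pi_pos
        field_simp

/-- the irregular indices `i` of `p` with `gcd(2i - 1, p - 1) = m` -/
def irr (p m : ℕ) : Finset ℕ :=
  (Icc 1 ((p - 3) / 2)).filter
    (fun i => Nat.gcd (2 * i - 1) (p - 1) = m ∧ (p : ℤ) ∣ (bernoulli (2 * i)).num)

lemma base_ge (p : ℕ) (hp5 : 5 ≤ p) : 1 ≤ √(p : ℝ) * (Real.log p + 2) / (2 * Real.pi) := by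
  have hp5' : (5 : ℝ) ≤ p := by exact_mod_cast hp5
  have h1 : (2.2 : ℝ) ≤ √p := by
    apply Real.le_sqrt_of_sq_le
    norm_num
    linarith
  have h2 : (1.38 : ℝ) ≤ Real.log p := by
    have h3 : Real.log 4 ≤ Real.log p := Real.log_le_log (by norm_num) (by linarith)
    have h4 : Real.log 4 = 2 * Real.log 2 := by
      rw [show (4 : ℝ) = 2 ^ 2 by norm_num, Real.log_pow]; norm_num
    have h5 := Real.log_two_gt_d9
    linarith
  have h3 := Real.pi_lt_d2
  rw [le_div_iff₀ (by have := Real.pi_pos; positivity)]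
  have h4 : (2.2 : ℝ) * 3.38 ≤ √p * (Real.log p + 2) :=
    mul_le_mul h1 (by linarith) (by norm_num) (Real.sqrt_nonneg _)
  linarith

/-- for every prime `p ≥ 5` and every `m` -/
theorem main (p : ℕ) (hp : p.Prime) (hp5 : 5 ≤ p) (m : ℕ) :
    (p : ℝ) ^ #(irr p m) ≤
      2 * (√p * (Real.log p + 2) / (2 * Real.pi)) ^ ((p - 1) / m).totient := by
  have hF : Fact p.Prime := ⟨hp⟩
  have hp3 : 3 ≤ p := by omega
  have hodd : p % 2 = 1 := by
    rcases hp.eq_two_or_odd with h | h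
    · omega
    · exact h
  rcases (irr p m).eq_empty_or_nonempty with h0 | ⟨i0, hi0⟩
  · rw [h0, card_empty, pow_zero]
    have := one_le_pow₀ (base_ge p hp5) (n := ((p - 1) / m).totient)
    linarith
  · unfold irr at hi0
    rw [mem_filter, mem_Icc] at hi0
    obtain ⟨⟨hi1, hi2⟩, hi3, -⟩ := hi0
    have hmd : m ∣ p - 1 := hi3 ▸ Nat.gcd_dvd_right _ _
    have hmi : m ∣ 2 * i0 - 1 := hi3 ▸ Nat.gcd_dvd_left _ _
    obtain ⟨d, hd⟩ := hmd
    have hmodd : Odd m := by
      obtain ⟨c, hc⟩ := hmi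
      have : Odd (m * c) := by rw [← hc, Nat.odd_iff]; omega
      exact (Nat.odd_mul.mp this).1
    have hm0 : 0 < m := hmodd.pos
    have hdd : (p - 1) / m = d := by rw [hd, Nat.mul_div_cancel_left _ hm0]
    rw [hdd]
    set B := (irr p m).image (fun i => (2 * i - 1) / m) with hBdef
    have hdvd : ∀ i ∈ irr p m, 1 ≤ i ∧ i ≤ (p - 3) / 2 ∧ m * ((2 * i - 1) / m) = 2 * i - 1 := by
      intro i hi
      unfold irr at hi
      rw [mem_filter, mem_Icc] at hi
      exact ⟨hi.1.1, hi.1.2, Nat.mul_div_cancel' (hi.2.1 ▸ Nat.gcd_dvd_left _ _)⟩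
    have hcard : #B = #(irr p m) := by
      apply card_image_of_injOn
      intro i hi j hj hij
      obtain ⟨hi1, hi2, hi3⟩ := hdvd i hi
      obtain ⟨hj1, hj2, hj3⟩ := hdvd j hj
      simp only at hij
      rw [hij, hj3] at hi3
      omega
    rw [← hcard]
    apply bound hd hmodd hp3
    intro k hk
    rw [hBdef, mem_image] at hk
    obtain ⟨i, hi, rfl⟩ := hk
    obtain ⟨h1, h2, h3⟩ := hdvd i hi
    unfold irr at hi
    rw [mem_filter, mem_Icc] at hi
    have hgcd := hi.2.1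
    have hk0 : 0 < (2 * i - 1) / m := by
      rcases Nat.eq_zero_or_pos ((2 * i - 1) / m) with h | h
      · rw [h, mul_zero] at h3; omega
      · exact h
    refine ⟨hk0, ?_, ?_, ?_, ?_⟩
    · have h4 : m * ((2 * i - 1) / m) < m * d := by rw [h3, ← hd]; omega
      exact lt_of_mul_lt_mul_left h4 (Nat.zero_le m)
    · have h4 : m * Nat.gcd ((2 * i - 1) / m) d = m * 1 := by
        rw [← Nat.gcd_mul_left, h3, ← hd, hgcd, mul_one]
      exact Nat.eq_of_mul_eq_mul_left hm0 h4
    · rw [h3]; omega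
    · rw [h3]
      have : 2 * i - 1 + 1 = 2 * i := by omega
      rw [this]
      exact hi.2.2

end Pool.Agent.Run7.h97.GO
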