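import Mathlib
import Pool.Agent.Run7.h97.GO.Fin

/-!
# Asymptotic forms
-/

set_option autoImplicit false

open Finset Filter

namespace Pool.Agent.Run7.h97.GO

lemma totient_pos_of {p m : ℕ} (h : (irr p m).Nonempty) (hp5 : 5 ≤ p) :
    0 < ((p - 1) / m).totient := by
  obtain ⟨i, hi⟩ := h
  unfold irr at hi
  rw [mem_filter] at hi
  have hmd : m ∣ p - 1 := hi.2.1 ▸ Nat.gcd_dvd_right _ _
  rw [Nat.totient_pos]
  exact Nat.div_pos (Nat.le_of_dvd (by omega) hmd) (Nat.pos_of_dvd_of_pos hmd (by omega))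

/-- uniformly in `m` -/
theorem eps (ε : ℝ) (hε : 0 < ε) : ∃ P : ℕ, ∀ p : ℕ, p.Prime → P ≤ p → ∀ m : ℕ,
    (#(irr p m) : ℝ) ≤ (1 / 2 + ε) * ((p - 1) / m).totient := by
  have h1 : ∀ᶠ x : ℝ in atTop, Real.log 2 + Real.log ((x + 2) / (2 * Real.pi)) ≤ ε * x := by
    have h2 := (Real.isLittleO_log_id_atTop.def (show (0 : ℝ) < ε / 4 by positivity))
    filter_upwards [h2, eventually_ge_atTop (max 2 (2 * Real.log 2 / ε + 4))] with x hx hx1
    have hx2 : 2 ≤ x := (le_max_left _ _).trans hx1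
    have hx3 : 2 * Real.log 2 / ε + 4 ≤ x := (le_max_right _ _).trans hx1
    rw [id, Real.norm_eq_abs, Real.norm_eq_abs, abs_of_nonneg (Real.log_nonneg (by linarith)),
      abs_of_nonneg (by linarith)] at hx
    have hpi := Real.pi_gt_three
    have h4 : Real.log ((x + 2) / (2 * Real.pi)) ≤ Real.log x := by
      apply Real.log_le_log (by positivity)
      rw [div_le_iff₀ (by positivity)]
      nlinarith
    have h5 : 2 * Real.log 2 / ε ≤ x := by linarith
    rw [div_le_iff₀ hε] at h5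
    nlinarith
  have h2 : ∀ᶠ p : ℕ in atTop, Real.log 2 + Real.log ((Real.log p + 2) / (2 * Real.pi)) ≤
      ε * Real.log p :=
    (Real.tendsto_log_atTop.comp tendsto_natCast_atTop_atTop).eventually h1
  obtain ⟨P, hP⟩ := eventually_atTop.1 h2
  refine ⟨max P 5, fun p hp hpP m => ?_⟩
  have hp5 : 5 ≤ p := (le_max_right _ _).trans hpP
  have h3 := hP p ((le_max_left _ _).trans hpP)
  rcases (irr p m).eq_empty_or_nonempty with h0 | h0
  · rw [h0, card_empty, Nat.cast_zero]
    positivity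
  have hφ := totient_pos_of h0 hp5
  set φ := ((p - 1) / m).totient with hφd
  have hφ1 : (1 : ℝ) ≤ φ := by exact_mod_cast hφ
  have hm := main p hp hp5 m
  have hp0 : (0 : ℝ) < p := by exact_mod_cast hp.pos
  have hp1 : (1 : ℝ) < p := by exact_mod_cast hp.one_lt
  have hlog : 0 < Real.log p := Real.log_pos hp1
  have hpi := Real.pi_pos
  have h4 := Real.log_le_log (by positivity) hm
  rw [Real.log_mul (by norm_num) (by positivity), Real.log_pow, Real.log_pow, ← hφd,
    mul_div_assoc, Real.log_mul (by positivity) (by positivity), Real.log_sqrt hp0.le] at h4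
  have h5 : (#(irr p m) : ℝ) * Real.log p ≤ ((1 / 2 + ε) * φ) * Real.log p := by
    have h6 : Real.log 2 ≤ φ * Real.log 2 :=
      le_mul_of_one_le_left (Real.log_nonneg (by norm_num)) hφ1
    have h7 : (φ : ℝ) * (Real.log 2 + Real.log ((Real.log p + 2) / (2 * Real.pi))) ≤
        φ * (ε * Real.log p) := mul_le_mul_of_nonneg_left h3 (by positivity)
    calc (#(irr p m) : ℝ) * Real.log p ≤ Real.log 2 +
          φ * (Real.log p / 2 + Real.log ((Real.log p + 2) / (2 * Real.pi))) := h4
      _ ≤ φ * Real.log 2 +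
          φ * (Real.log p / 2 + Real.log ((Real.log p + 2) / (2 * Real.pi))) := by linarith
      _ = φ * (Real.log 2 + Real.log ((Real.log p + 2) / (2 * Real.pi))) +
          φ * (Real.log p / 2) := by ring
      _ ≤ φ * (ε * Real.log p) + φ * (Real.log p / 2) := by linarith
      _ = _ := by ring
  exact le_of_mul_le_mul_right h5 hlog

/-- for a fixed order -/
theorem fixed (d : ℕ) : ∃ P : ℕ, ∀ p : ℕ, p.Prime → P ≤ p → ∀ m : ℕ, p - 1 = m * d →
    2 * #(irr p m) ≤ d.totient := by
  have h2 : ∀ᶠ p : ℕ in atTop, 2 * (Real.log p) ^ d.totient < √(p : ℝ) := by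
    have h3 := (isLittleO_log_rpow_rpow_atTop (d.totient : ℝ)
      (show (0 : ℝ) < 1 / 2 by norm_num)).bound (show (0 : ℝ) < 1 / 4 by norm_num)
    have h4 := tendsto_natCast_atTop_atTop (R := ℝ) |>.eventually h3
    filter_upwards [h4, eventually_ge_atTop 3] with p hp hp3
    have hp0 : (0 : ℝ) < p := by exact_mod_cast (by omega : 0 < p)
    have hlog : 0 ≤ Real.log p := Real.log_natCast_nonneg p
    rw [Real.rpow_natCast, Real.norm_eq_abs, Real.norm_eq_abs, abs_of_nonneg (by positivity),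
      abs_of_nonneg (by positivity), ← Real.sqrt_eq_rpow] at hp
    have : 0 < √(p : ℝ) := Real.sqrt_pos.mpr hp0
    linarith
  obtain ⟨P, hP⟩ := eventually_atTop.1 h2
  refine ⟨max P 5, fun p hp hpP m hpm => ?_⟩
  have hp5 : 5 ≤ p := (le_max_right _ _).trans hpP
  have h3 := hP p ((le_max_left _ _).trans hpP)
  by_contra hcon
  push Not at hcon
  have hm0 : 0 < m := by
    rcases Nat.eq_zero_or_pos m with h | h
    · rw [h, zero_mul] at hpm; omega
    · exact h
  have hdd : (p - 1) / m = d := by rw [hpm, Nat.mul_div_cancel_left _ hm0]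
  have hm := main p hp hp5 m
  rw [hdd] at hm
  have hp0 : (0 : ℝ) < p := by exact_mod_cast hp.pos
  have hsq : √(p : ℝ) ^ 2 = p := Real.sq_sqrt hp0.le
  have hs1 : 1 ≤ √(p : ℝ) := by
    rw [Real.one_le_sqrt]
    exact_mod_cast hp.one_le
  have hlog1 : 1.38 ≤ Real.log p := by
    have h3 : Real.log 4 ≤ Real.log p := Real.log_le_log (by norm_num) (by
      have : 4 ≤ p := by omega
      exact_mod_cast this)
    have h4 : Real.log 4 = 2 * Real.log 2 := by
      rw [show (4 : ℝ) = 2 ^ 2 by norm_num, Real.log_pow]; norm_num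
    have h5 := Real.log_two_gt_d9
    linarith
  have hpi := Real.pi_gt_three
  have h4 : √(p : ℝ) ^ (d.totient + 1) ≤ (p : ℝ) ^ #(irr p m) := by
    have e : (p : ℝ) ^ #(irr p m) = √(p : ℝ) ^ (2 * #(irr p m)) := by rw [pow_mul, hsq]
    rw [e]
    exact pow_le_pow_right₀ hs1 (by omega)
  have h5 : 2 * (√(p : ℝ) * (Real.log p + 2) / (2 * Real.pi)) ^ d.totient ≤
      2 * (√(p : ℝ) * Real.log p) ^ d.totient := by
    apply mul_le_mul_of_nonneg_left _ (by norm_num)
    apply pow_le_pow_left₀ (by positivity)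
    rw [div_le_iff₀ (by positivity), mul_assoc]
    apply mul_le_mul_of_nonneg_left _ (by positivity)
    nlinarith
  have h6 : √(p : ℝ) ^ d.totient * √p ≤ √(p : ℝ) ^ d.totient * (2 * (Real.log p) ^ d.totient) := by
    rw [← pow_succ]
    refine (h4.trans (hm.trans h5)).trans (le_of_eq ?_)
    rw [mul_pow]; ring
  have h7 := le_of_mul_le_mul_left h6 (by positivity)
  linarith

end Pool.Agent.Run7.h97.GO
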